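import Mathlib
import Pool.Agent.H.MP_6a83a4_lc.Family

namespace Pool.Agent.Results.MP_6a83a4_lc.ClosedMED

open Pool.Agent.H.MP_6a83a4_lc

theorem result : ∃ F : Set (ℕ → ℕ), IsClosed F ∧
    (∀ f ∈ F, Function.Bijective f) ∧
    (∀ f ∈ F, ∀ g ∈ F, f ≠ g → {n | f n = g n}.Finite) ∧
    (∀ g : ℕ → ℕ, Function.Bijective g → ∃ f ∈ F, {n | f n = g n}.Infinite) :=
  ⟨Fam, isClosed_Fam, fun _ hf => bij_of_mem hf, fun _ hf _ hg h => ev_diff hf hg h,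
    fun _ hg => maximal hg.1⟩

end Pool.Agent.Results.MP_6a83a4_lc.ClosedMED
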